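import Pool.Agent.H88.GoodSeqDefs
import Pool.Agent.H88.GoodSeq

set_option autoImplicit false

namespace Pool.Agent.Results.MP_d99131_an.NoRatio

open Pool.Agent.H88.GoodSeq Filter Topology

theorem result : ∃ lam : ℕ → ℂ, (∀ n, lam n ≠ 0) ∧ Good lam ∧ ∀ τ : ℕ, 1 ≤ τ → ¬ ∃ L : ENNReal,
    Tendsto (fun n => ENNReal.ofReal (‖lam n‖ / ‖lam (n + τ)‖)) atTop (𝓝 L) :=
  ⟨lam, fun n => by simp [lam], good, fun τ hτ ⟨L, hL⟩ => no_limit τ hτ L hL⟩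

end Pool.Agent.Results.MP_d99131_an.NoRatio
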